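import Pool.Agent.H24.RCM.Targets

/-!
# MP_4d5ac9_nt, row MTT
-/

set_option autoImplicit false

open NumberField Polynomial nonZeroDivisors Pool.Agent.H26.NL Pool.Agent.H24.RCM

namespace Pool.Agent.H24.RCM

noncomputable section

lemma dl_zero {d : ℕ} {v w : (ZMod d)ˣ → ℕ} (h : dl v w = 0) : v = w := by
  funext t
  have := congrFun h t
  simp only [dl, Pi.zero_apply] at this
  omega

lemma sq_one_cases {R : Type*} [CommRing R] [IsDomain R] {a : R} (h : a ^ 2 = 1) :
    a = 1 ∨ a = -1 := by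
  have h1 : (a - 1) * (a + 1) = 0 := by linear_combination h
  rcases mul_eq_zero.mp h1 with h2 | h2
  · left; linear_combination h2
  · right; linear_combination h2

lemma CV_pow {d : ℕ} [Fact d.Prime] {p k q κ m : ℕ} (S : Sol d p k q) [Fact p.Prime] (K : Type)
    [Field K] [NumberField K] [IsCyclotomicExtension {d} ℚ K] (hk : k = κ * m)
    (v : (ZMod d)ˣ → ℕ) : (CV S K m v) ^ κ = 1 := by
  rw [CV, ← Finset.prod_pow]
  refine Finset.prod_eq_one fun t _ => ?_
  rw [← pow_mul, mul_comm, pow_mul, S.cl_pow hk, one_pow]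

theorem pf_MTT (hino : T_INO) (hine : T_INE) (hev : T_HEV) (hod : T_HOD) (hcnt : T_CNT)
    (hnmm : T_NMM) : T_MTT := by
  intro r e d p k κ s hr he hp hd4 hk hodd hκk hκr hq h hs
  have S := sol_of_eq (by omega) hp hr he hk h
  have hdp : d.Prime := d_prime S.hq (by omega) hp S.eq
  have hd : Fact d.Prime := ⟨hdp⟩
  have hpf : Fact p.Prime := ⟨hp⟩
  have hC := cyc_model d
  obtain ⟨m, hm⟩ := hκk
  have hκ1 : 1 ≤ κ := hodd.pos
  have hrd := S.not_dvd_r hr
  have hd5 : 5 ≤ d := by
    rcases Nat.lt_or_ge 4 d with h1 | h1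
    · exact h1
    · have : d = 4 := by omega
      rw [this] at hdp
      exact absurd hdp (by norm_num)
  have hcop : Nat.Coprime κ (2 * d) := by
    refine Nat.Coprime.mul_right ?_ ?_
    · exact Nat.Coprime.symm (Nat.coprime_two_left.mpr hodd)
    · rw [Nat.coprime_comm, Nat.Prime.coprime_iff_not_dvd hdp]
      exact fun h => hrd (h.trans hκr)
  have D : Dat r e κ (r ^ e) := ⟨hr, he, rfl, hκr⟩
  set K := CyclotomicField d ℚ
  have hcard : Fintype.card (ZMod d)ˣ = d - 1 := by
    rw [ZMod.card_units]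
  have hneg : ∀ t : (ZMod d)ˣ, (-1 : (ZMod d)ˣ) * t = -t := fun t => by simp
  -- the main step
  have key : ∃ H : Finset (ZMod d)ˣ, Fintype.card (ZMod d)ˣ ≤ 3 * H.card ∧
      ∀ v w : (ZMod d)ˣ → ℕ, (∀ t, t ∉ H → v t = 0) → (∀ t, t ∉ H → w t = 0) →
      ∑ t, v t ≤ s → ∑ t, w t ≤ s → CV S K m v = CV S K m w → v = w := by
    by_cases hc : r = d ∨ ∃ j : ℕ, d ∣ r ^ j + 1
    · obtain ⟨H, h1, h2⟩ := hev (ZMod d)ˣ (-1) (by simp) (neg_one_ne_one S.hd2)
      refine ⟨H, h1, fun v w hv hw sv sw hcl => ?_⟩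
      by_contra hne
      have h3 := hine d K p k (r ^ e) κ m r e S D hm hκ1 hodd hcop hc v w hcl
        (fun h4 => hne (dl_zero (h2 (dl v w) (fun t ht => by simp [dl, hv t ht, hw t ht])
          (fun t => by rw [hneg]; exact h4 t))))
      refine hnmm d p k (r ^ e) κ m s S hm hs hd5 hq (h3.trans ?_)
      refine Nat.mul_le_mul_left _ (Nat.pow_le_pow_right hp.pos ?_)
      have e1 : sm v ≤ s := sv
      have e2 : sm w ≤ s := sw
      nlinarith [Nat.zero_le m]
    · push Not at hc
      obtain ⟨hc1, hc2⟩ := hc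
      have hcr : r.Coprime d := (Nat.coprime_primes hr hdp).mpr hc1
      set ρ : (ZMod d)ˣ := ZMod.unitOfCoprime r hcr with hρdef
      have hρ : (ρ : ZMod d) = (r : ZMod d) := ZMod.coe_unitOfCoprime r hcr
      have hnp : (-1 : (ZMod d)ˣ) ∉ Subgroup.zpowers ρ := by
        intro h1
        rw [← mem_powers_iff_mem_zpowers] at h1
        obtain ⟨j, hj⟩ := h1
        apply hc2 j
        rw [← ZMod.natCast_eq_zero_iff]
        have h2 := congrArg (fun u : (ZMod d)ˣ => (u : ZMod d)) hj
        simp only [Units.val_pow_eq_pow_val, hρ, Units.val_neg, Units.val_one] at h2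
        push_cast
        rw [h2]; ring
      have hρ1 : ρ ≠ 1 := by
        intro h1
        apply hrd
        have h2 : (r : ZMod d) = 1 := by rw [← hρ, h1, Units.val_one]
        rw [← ZMod.natCast_eq_zero_iff, Nat.cast_sub hr.one_lt.le, h2]
        simp
      have hord : 3 ≤ orderOf ρ := by
        have h0 : 0 < orderOf ρ := orderOf_pos ρ
        have h1 : orderOf ρ ≠ 1 := fun h => hρ1 (orderOf_eq_one_iff.mp h)
        have h2 : orderOf ρ ≠ 2 := by
          intro h2
          have h3 : ρ ^ 2 = 1 := h2 ▸ pow_orderOf_eq_one ρ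
          have h4 : (ρ : ZMod d) ^ 2 = 1 := by
            rw [← Units.val_pow_eq_pow_val, h3, Units.val_one]
          rcases sq_one_cases h4 with h5 | h5
          · exact hρ1 (Units.ext h5)
          · apply hnp
            have : ρ = -1 := Units.ext (by rw [h5, Units.val_neg, Units.val_one])
            rw [← this]
            exact Subgroup.mem_zpowers ρ
        omega
      obtain ⟨H, h1, h2⟩ := hod (ZMod d)ˣ (-1) ρ (by simp) hnp hord
      refine ⟨H, h1, fun v w hv hw sv sw hcl => ?_⟩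
      by_contra hne
      have h3 := hino d K p k (r ^ e) κ m r e S D hm hκ1 hcop ρ (Or.inl hρ) v w hcl
        (fun h4 => hne (dl_zero (h2 (dl v w) (fun t ht => by simp [dl, hv t ht, hw t ht])
          (fun t => by rw [hneg, hneg]; exact h4 t))))
      refine hnmm d p k (r ^ e) κ m s S hm hs hd5 hq (h3.trans ?_)
      refine Nat.mul_le_mul_left _ (Nat.pow_le_pow_right hp.pos ?_)
      have e1 : sm v ≤ s := sv
      have e2 : sm w ≤ s := sw
      have e3 : sm v + sm w ≤ 2 * s := by omega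
      calc 2 * m * (sm v + sm w) ≤ 2 * m * (2 * s) := Nat.mul_le_mul_left _ e3
        _ = 4 * m * s := by ring
  obtain ⟨H, hH, hkey⟩ := key
  have hfin : Finite {c : ClassGroup (𝓞 K) // c ^ κ = 1} := inferInstance
  have h5 := hcnt (ZMod d)ˣ H s {c : ClassGroup (𝓞 K) // c ^ κ = 1}
    (fun v => ⟨CV S K m v, CV_pow S K hm v⟩)
    (fun v w hv hw sv sw hc => hkey v w hv hw sv sw (congrArg Subtype.val hc))
  refine le_trans (Nat.choose_le_choose s ?_) h5
  rw [hcard] at hH
  omega

end

end Pool.Agent.H24.RCM
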