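import Pool.Agent.H26.NL.Fin

/-!
# MP_4d5ac9_nt, many classes: definitions and targets

Products of the ideals over the conjugates of `1 - ζ q`, with exponents.
-/

set_option autoImplicit false

namespace Pool.Agent.H24.RCM

open NumberField Polynomial nonZeroDivisors Pool.Agent.H26.NL

noncomputable section

/-- the product of the `Pi` with the exponents `v` -/
def PV (d : ℕ) [Fact d.Prime] (K : Type) [Field K] [NumberField K]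
    [IsCyclotomicExtension {d} ℚ K] (q : ℕ) (v : (ZMod d)ˣ → ℕ) : 𝓞 K := ∏ t, Pi d K q t ^ v t

/-- the product of the primes `pr` with the exponents `n * v` -/
def IV {d : ℕ} [Fact d.Prime] {p k q : ℕ} (S : Sol d p k q) [Fact p.Prime] (K : Type) [Field K]
    [NumberField K] [IsCyclotomicExtension {d} ℚ K] (n : ℕ) (v : (ZMod d)ˣ → ℕ) : Ideal (𝓞 K) :=
  ∏ t, (S.pr K t) ^ (n * v t)

/-- the product of the classes with the exponents `v` -/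
def CV {d : ℕ} [Fact d.Prime] {p k q : ℕ} (S : Sol d p k q) [Fact p.Prime] (K : Type) [Field K]
    [NumberField K] [IsCyclotomicExtension {d} ℚ K] (m : ℕ) (v : (ZMod d)ˣ → ℕ) :
    ClassGroup (𝓞 K) := ∏ t, (S.cl K m t) ^ v t

/-- complex conjugation on exponents -/
def ng {d : ℕ} (v : (ZMod d)ˣ → ℕ) : (ZMod d)ˣ → ℕ := fun t => v (-t)

/-- an automorphism on exponents -/
def tw {d : ℕ} (ρ : (ZMod d)ˣ) (v : (ZMod d)ˣ → ℕ) : (ZMod d)ˣ → ℕ := fun t => v (t * ρ)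

/-- the sum of the exponents -/
def sm {d : ℕ} [Fact d.Prime] (v : (ZMod d)ˣ → ℕ) : ℕ := ∑ t, v t

/-- the difference of exponents -/
def dl {d : ℕ} (v w : (ZMod d)ˣ → ℕ) : (ZMod d)ˣ → ℤ := fun t => (v t : ℤ) - w t

def T_PVU : Prop := ∀ (d : ℕ) [Fact d.Prime] (K : Type) [Field K] [NumberField K]
  [IsCyclotomicExtension {d} ℚ K] (p k q : ℕ) [Fact p.Prime], Sol d p k q →
  ∀ v w : (ZMod d)ˣ → ℕ, PV d K q v = PV d K q w → v = w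

def T_PVS : Prop := ∀ (d : ℕ) [Fact d.Prime] (K : Type) [Field K] [NumberField K]
  [IsCyclotomicExtension {d} ℚ K] (p k q : ℕ) [Fact p.Prime], Sol d p k q →
  ∀ (v w : (ZMod d)ˣ → ℕ) (ρ : (ZMod d)ˣ), sg ρ (PV d K q v) = PV d K q (tw ρ v) ∧
    (q : 𝓞 K) ∣ PV d K q v - 1 ∧ PV d K q v ≠ 0 ∧ nm (PV d K q v) = p ^ (k * sm v) ∧
    PV d K q v * PV d K q w = PV d K q (v + w) ∧ ∀ n : ℕ, PV d K q v ^ n = PV d K q (n • v)

def T_IVS : Prop := ∀ (d : ℕ) [Fact d.Prime] (K : Type) [Field K] [NumberField K]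
  [IsCyclotomicExtension {d} ℚ K] (p k q : ℕ) [Fact p.Prime] (S : Sol d p k q)
  (v : (ZMod d)ˣ → ℕ) (ρ : (ZMod d)ˣ) (n : ℕ), Ideal.absNorm (IV S K n v) = p ^ (n * sm v) ∧
    IsCoprime (Ideal.span {(q : 𝓞 K)}) (IV S K n v) ∧
    (∀ x ∈ IV S K n v, sg ρ x ∈ IV S K n (tw ρ v)) ∧ IV S K k v = Ideal.span {PV d K q v}

def T_PRV : Prop := ∀ (d : ℕ) [Fact d.Prime] (K : Type) [Field K] [NumberField K]
  [IsCyclotomicExtension {d} ℚ K] (p k q κ m r : ℕ) [Fact p.Prime] (S : Sol d p k q),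
  k = κ * m → 1 ≤ κ → Nat.Coprime κ (2 * d) → ∀ v w : (ZMod d)ˣ → ℕ,
  CV S K m v = CV S K m w → ∃ g X Y u : 𝓞 K, PairD (d := d) r q κ X Y u
    (PV d K q (v + (κ - 1) • w + κ • ng w)) (PV d K q (ng v + (κ - 1) • ng w + κ • w)) ∧
    X = g * PV d K q (ng w) ∧ (∃ η : 𝓞 K, Y = η * sg (-1 : (ZMod d)ˣ) g * PV d K q w) ∧
    g ∈ IV S K (m * (κ - 1)) w

def T_INO : Prop := ∀ (d : ℕ) [Fact d.Prime] (K : Type) [Field K] [NumberField K]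
  [IsCyclotomicExtension {d} ℚ K] (p k q κ m r e : ℕ) [Fact p.Prime] (S : Sol d p k q),
  Dat r e κ q → k = κ * m → 1 ≤ κ → Nat.Coprime κ (2 * d) → ∀ (ρ : (ZMod d)ˣ), Adm r ρ →
  ∀ v w : (ZMod d)ˣ → ℕ, CV S K m v = CV S K m w →
  ¬ (∀ t, dl v w t - dl v w (-t) = dl v w (t * ρ) - dl v w (-(t * ρ))) →
  q ^ (d - 1) ≤ 2 ^ (d - 1) * p ^ (2 * m * (sm v + sm w))

def T_INE : Prop := ∀ (d : ℕ) [Fact d.Prime] (K : Type) [Field K] [NumberField K]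
  [IsCyclotomicExtension {d} ℚ K] (p k q κ m r e : ℕ) [Fact p.Prime] (S : Sol d p k q),
  Dat r e κ q → k = κ * m → 1 ≤ κ → Odd κ → Nat.Coprime κ (2 * d) →
  (r = d ∨ ∃ j : ℕ, d ∣ r ^ j + 1) → ∀ v w : (ZMod d)ˣ → ℕ, CV S K m v = CV S K m w →
  ¬ (∀ t, dl v w t = dl v w (-t)) →
  q ^ (d - 1) ≤ 2 ^ (d - 1) * p ^ (m * (sm v + sm w))

def T_HEV : Prop := ∀ (G : Type) [CommGroup G] [Fintype G] (c : G), c * c = 1 → c ≠ 1 →
  ∃ H : Finset G, Fintype.card G ≤ 3 * H.card ∧ ∀ V : G → ℤ, (∀ t, t ∉ H → V t = 0) →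
    (∀ t, V t = V (c * t)) → V = 0

def T_HOD : Prop := ∀ (G : Type) [CommGroup G] [Fintype G] (c ρ : G), c * c = 1 →
  c ∉ Subgroup.zpowers ρ → 3 ≤ orderOf ρ → ∃ H : Finset G, Fintype.card G ≤ 3 * H.card ∧
    ∀ V : G → ℤ, (∀ t, t ∉ H → V t = 0) →
      (∀ t, V t - V (c * t) = V (t * ρ) - V (c * (t * ρ))) → V = 0

def T_CNT : Prop := ∀ (G : Type) [Fintype G] [DecidableEq G] (H : Finset G) (s : ℕ) (C : Type)
  [Finite C] (c : (G → ℕ) → C), (∀ v w : G → ℕ, (∀ t, t ∉ H → v t = 0) →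
    (∀ t, t ∉ H → w t = 0) → ∑ t, v t ≤ s → ∑ t, w t ≤ s → c v = c w → v = w) →
  (H.card + s).choose s ≤ Nat.card C

def T_NMM : Prop := ∀ d p k q κ m s : ℕ, Sol d p k q → k = κ * m → 5 * s ≤ κ → 5 ≤ d →
  33 ≤ q → ¬ q ^ (d - 1) ≤ 2 ^ (d - 1) * p ^ (4 * m * s)

def T_MTT : Prop := ∀ r e d p k κ s : ℕ, r.Prime → 1 ≤ e → p.Prime → 4 ≤ d → 1 < k → Odd κ →
  κ ∣ k → κ ∣ r - 1 → 33 ≤ r ^ e → ((r ^ e) ^ d - 1) / (r ^ e - 1) = p ^ k → 5 * s ≤ κ →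
  ((d - 1) / 3 + s).choose s ≤
    Nat.card {c : ClassGroup (𝓞 (CyclotomicField d ℚ)) // c ^ κ = 1}

end

end Pool.Agent.H24.RCM
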